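import Pool.Agent.Work.MP_fbd347_gt.Extend

set_option autoImplicit false

open Set Filter Topology

namespace Pool.Agent.Work.MP_fbd347_gt

variable {X : Type} [TopologicalSpace X]

/-- First level: the closure of the evaluation image of `Cp X` is a Lindelöf `Σ`-space. -/
theorem Good.levelOne (G : Good X) :
    ∃ F : Set (Set (Cp (Cp X) → ℝ)), F.Countable ∧
      ∀ x ∈ closure (EV (Cp X)), ∃ K : Set (Cp (Cp X) → ℝ),
        IsCompact K ∧ x ∈ K ∧ K ⊆ closure (EV (Cp X)) ∧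
        ∀ U : Set (Cp (Cp X) → ℝ), IsOpen U → K ⊆ U →
          ∃ A ∈ F, K ⊆ A ∧ A ⊆ U ∩ closure (EV (Cp X)) := by
  classical
  let Θ : G.YT → (Cp (Cp X) → ℝ) := fun y g => G.hat g y
  have hΘ : Continuous Θ := continuous_pi fun g => G.hat_continuous g
  have hcl : closure (EV (Cp X)) = range Θ := G.closure_EV
  rw [hcl]
  let N : ℕ → List ℕ → Set G.YT := fun k s => {y | (∀ x, |y.1 x| ≤ k) ∧
    ∀ m n : ℕ, s[m]? = some n → ∀ i ≥ n, ∀ u, |y.1 (G.pt (u, i)) - y.1 G.inf| ≤ 1 / ((m : ℝ) + 1)}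
  refine ⟨range (fun p : ℕ × List ℕ => Θ '' N p.1 p.2), countable_range _, ?_⟩
  rintro _ ⟨y, rfl⟩
  obtain ⟨M, hM⟩ := y.2.1
  obtain ⟨k, hk⟩ := exists_nat_ge M
  choose ν hν using fun m : ℕ => y.2.2 (1 / ((m : ℝ) + 1)) (by positivity)
  let C : ℕ → Set (X → ℝ) := fun l => {v | (∀ x, |v x| ≤ k) ∧
    ∀ m < l, ∀ i ≥ ν m, ∀ u, |v (G.pt (u, i)) - v G.inf| ≤ 1 / ((m : ℝ) + 1)}
  have hCclosed : ∀ l, IsClosed (C l) := by
    intro l
    have heq : C l = (⋂ x, {v : X → ℝ | |v x| ≤ k}) ∩ ⋂ (m : ℕ) (_ : m < l) (i : ℕ) (_ : i ≥ ν m)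
        (u : ℕ → Bool), {v : X → ℝ | |v (G.pt (u, i)) - v G.inf| ≤ 1 / ((m : ℝ) + 1)} := by
      ext v
      simp [C]
    rw [heq]
    refine (isClosed_iInter fun x => ?_).inter (isClosed_iInter fun m => isClosed_iInter fun _ =>
      isClosed_iInter fun i => isClosed_iInter fun _ => isClosed_iInter fun u => ?_)
    · exact isClosed_le (continuous_apply x).abs continuous_const
    · exact isClosed_le ((continuous_apply (G.pt (u, i))).sub (continuous_apply G.inf)).abs
        continuous_const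
  have hbox : IsCompact (Set.pi univ fun _ : X => Icc (-(k : ℝ)) k) :=
    isCompact_univ_pi fun _ => isCompact_Icc
  have hCcompact : ∀ l, IsCompact (C l) := fun l =>
    hbox.of_isClosed_subset (hCclosed l) fun v hv x _ => abs_le.1 (hv.1 x)
  have hCanti : ∀ {i j}, i ≤ j → C j ⊆ C i := fun hij v hv =>
    ⟨hv.1, fun m hm => hv.2 m (hm.trans_le hij)⟩
  set KX : Set (X → ℝ) := ⋂ l, C l with hKX
  have hKXcompact : IsCompact KX :=
    (hCcompact 0).of_isClosed_subset (isClosed_iInter hCclosed) (iInter_subset _ 0)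
  have hKXYY : KX ⊆ range (Subtype.val : G.YT → X → ℝ) := by
    intro v hv
    refine ⟨⟨v, ⟨k, (mem_iInter.1 hv 0).1⟩, ?_⟩, rfl⟩
    intro ε hε
    obtain ⟨m, hm⟩ := exists_nat_one_div_lt hε
    refine ⟨ν m, fun i hi u => ?_⟩
    exact ((mem_iInter.1 hv (m + 1)).2 m (Nat.lt_succ_self m) i hi u).trans hm.le
  have hyK : y.1 ∈ KX := mem_iInter.2 fun l => ⟨fun x => (hM x).trans hk,
    fun m _ i hi u => hν m i hi u⟩
  refine ⟨Θ '' (Subtype.val ⁻¹' KX), ?_, ⟨y, hyK, rfl⟩, image_subset_range _ _, ?_⟩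
  · exact ((IsInducing.subtypeVal.isCompact_preimage_iff hKXYY).2 hKXcompact).image hΘ
  · intro U hU hKU
    obtain ⟨O', hO', hOO'⟩ := isOpen_induced_iff.1 (hU.preimage hΘ)
    have hKO : KX ⊆ O' := by
      intro v hv
      obtain ⟨v', rfl⟩ := hKXYY hv
      have : v' ∈ Subtype.val ⁻¹' O' := by
        rw [hOO']
        exact hKU ⟨v', hv, rfl⟩
      exact this
    obtain ⟨l, hl⟩ : ∃ l, C l ⊆ O' := by
      refine exists_subset_nhds_of_isCompact' ?_ hCcompact hCclosed
        (fun v hv => hO'.mem_nhds (hKO hv))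
      exact directed_of_isDirected_le fun i j hij => hCanti hij
    refine ⟨Θ '' N k ((List.range l).map ν), ⟨(k, (List.range l).map ν), rfl⟩, ?_, ?_⟩
    · refine image_mono ?_
      intro v hv
      have hv' : v.1 ∈ C l := mem_iInter.1 hv l
      refine ⟨hv'.1, fun m n hmn i hi u => ?_⟩
      rw [List.getElem?_map] at hmn
      rw [Option.map_eq_some_iff] at hmn
      obtain ⟨a, ha, rfl⟩ := hmn
      obtain ⟨hml, ha⟩ := List.getElem?_eq_some_iff.1 ha
      rw [List.getElem_range] at ha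
      subst ha
      rw [List.length_range] at hml
      exact hv'.2 _ hml i hi u
    · rintro _ ⟨v, hv, rfl⟩
      refine ⟨?_, mem_range_self v⟩
      have hv' : v.1 ∈ C l := by
        refine ⟨hv.1, fun m hm i hi u => hv.2 m (ν m) ?_ i hi u⟩
        rw [List.getElem?_map, List.getElem?_range hm]
        rfl
      have : v ∈ Θ ⁻¹' U := by
        rw [← hOO']
        exact hl hv'
      exact this

end Pool.Agent.Work.MP_fbd347_gt
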