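import Pool.Agent.Work.MP_fbd347_gt.Abstract

set_option autoImplicit false

open Set Filter Topology

namespace Pool.Agent.Work.MP_fbd347_gt

/-- A `[0,1]`-valued function on the fan space, continuous at its only non-isolated point. -/
structure FanFun where
  f : Option ((ℕ → Bool) × ℕ) → ℝ
  mem : ∀ p, f p ∈ Icc (0 : ℝ) 1
  atInf : AtInf (fun p => some p) none f

/-- Well-founded countably branching labelled trees; they serve both as points and as
coordinates of the space. -/
inductive Nd : Type
  | leaf : Nd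
  | node (s : ℕ → Nd) (v : ℕ → Icc (0 : ℝ) 1) (f : FanFun) : Nd

namespace Nd

/-- the `n`-th subtree -/
def kid : Nd → ℕ → Option Nd
  | leaf, _ => none
  | node s _ _, n => some (s n)

/-- the `n`-th label -/
def lab : Nd → ℕ → ℝ
  | leaf, _ => 0
  | node _ v _, n => v n

/-- the zero function -/
def zeroFan : FanFun where
  f := fun _ => 0
  mem := fun _ => ⟨le_rfl, zero_le_one⟩
  atInf := fun ε hε => ⟨0, fun _ _ _ => by simpa using hε.le⟩

/-- the fan function -/
def fan : Nd → FanFun
  | leaf => zeroFan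
  | node _ _ f => f

/-- `x` is a child of `α` -/
def Child (x α : Nd) : Prop := ∃ n, α.kid n = some x

theorem child_wf : WellFounded Child := by
  refine ⟨fun a => ?_⟩
  induction a with
  | leaf =>
    refine Acc.intro _ ?_
    rintro y ⟨n, hn⟩
    simp [kid] at hn
  | node s v f ih =>
    refine Acc.intro _ ?_
    rintro y ⟨n, hn⟩
    simp only [kid, Option.some.injEq] at hn
    rw [← hn]
    exact ih n

theorem child_asymm {x α : Nd} (h : Child x α) : ¬ Child α x :=
  child_wf.asymmetric _ _ h

open Classical in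
/-- the label which `α` gives to its child `x` -/
noncomputable def look (α x : Nd) : ℝ :=
  if h : ∃ n, α.kid n = some x then α.lab (Nat.find h) else 0

open Classical in
/-- the coordinate `α` of the point `x` -/
noncomputable def coord (α x : Nd) : ℝ :=
  if Child x α then look α x else if Child α x then look x α else 0

theorem look_eq {α x : Nd} {c : ℝ} (h : Child x α) (hc : ∀ n, α.kid n = some x → α.lab n = c) :
    look α x = c := by
  classical
  have h' : ∃ n, α.kid n = some x := h
  unfold look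
  rw [dif_pos h']
  exact hc _ (Nat.find_spec h')

theorem lab_mem (α : Nd) (n : ℕ) : α.lab n ∈ Icc (0 : ℝ) 1 := by
  cases α with
  | leaf => exact ⟨le_rfl, zero_le_one⟩
  | node s v f => exact (v n).2

theorem look_mem (α x : Nd) : look α x ∈ Icc (0 : ℝ) 1 := by
  classical
  unfold look
  split_ifs
  · exact lab_mem _ _
  · exact ⟨le_rfl, zero_le_one⟩

theorem coord_mem (α x : Nd) : coord α x ∈ Icc (0 : ℝ) 1 := by
  classical
  unfold coord
  split_ifs
  · exact look_mem _ _
  · exact look_mem _ _
  · exact ⟨le_rfl, zero_le_one⟩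

end Nd

/-- The underlying set of the space: the fan and the trees. -/
def XX : Type := Option ((ℕ → Bool) × ℕ) ⊕ Nd

/-- The coordinate map. -/
noncomputable def EE (x : XX) (α : Nd) : ℝ :=
  Sum.elim (fun p => α.fan.f p) (fun x => Nd.coord α x) x

noncomputable instance : TopologicalSpace XX := TopologicalSpace.induced EE inferInstance

theorem EE_inducing : IsInducing EE := ⟨rfl⟩

theorem EE_mem (x : XX) (α : Nd) : EE x α ∈ Icc (0 : ℝ) 1 := by
  rcases x with p | x
  · exact α.fan.mem p
  · exact Nd.coord_mem α x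

theorem EE_continuous (α : Nd) : Continuous fun x : XX => EE x α :=
  (continuous_apply α).comp EE_inducing.continuous

/-- coordinates realise prescribed values on countable sets -/
theorem exists_coord (f : FanFun) (A : Set Nd) (hA : A.Countable) (g : Nd → ℝ)
    (hg : ∀ x, g x ∈ Icc (0 : ℝ) 1) :
    ∃ α : Nd, (∀ p, EE (Sum.inl p) α = f.f p) ∧ ∀ x ∈ A, EE (Sum.inr x) α = g x := by
  classical
  rcases A.eq_empty_or_nonempty with rfl | hne
  · exact ⟨Nd.node (fun _ => Nd.leaf) (fun _ => ⟨0, le_rfl, zero_le_one⟩) f, fun p => rfl,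
      fun x hx => absurd hx (notMem_empty x)⟩
  · obtain ⟨s, hs⟩ := hA.exists_eq_range hne
    refine ⟨Nd.node s (fun n => ⟨g (s n), hg _⟩) f, fun p => rfl, fun x hx => ?_⟩
    rw [hs] at hx
    obtain ⟨n, rfl⟩ := hx
    have hch : Nd.Child (s n) (Nd.node s (fun n => ⟨g (s n), hg _⟩) f) := ⟨n, rfl⟩
    change Nd.coord _ _ = _
    unfold Nd.coord
    rw [if_pos hch]
    refine Nd.look_eq hch fun m hm => ?_
    simp only [Nd.kid, Option.some.injEq] at hm
    simp only [Nd.lab, hm]

/-- points realise prescribed values on countable sets of coordinates -/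
theorem exists_point (T : Set Nd) (hT : T.Countable) (h : Nd → ℝ)
    (hh : ∀ α, h α ∈ Icc (0 : ℝ) 1) :
    ∃ x : XX, ∀ α ∈ T, EE x α = h α := by
  classical
  rcases T.eq_empty_or_nonempty with rfl | hne
  · exact ⟨Sum.inr Nd.leaf, fun x hx => absurd hx (notMem_empty x)⟩
  · obtain ⟨s, hs⟩ := hT.exists_eq_range hne
    refine ⟨Sum.inr (Nd.node s (fun n => ⟨h (s n), hh _⟩) Nd.zeroFan), fun α hα => ?_⟩
    rw [hs] at hα
    obtain ⟨n, rfl⟩ := hα
    have hch : Nd.Child (s n) (Nd.node s (fun n => ⟨h (s n), hh _⟩) Nd.zeroFan) := ⟨n, rfl⟩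
    change Nd.coord _ _ = _
    unfold Nd.coord
    rw [if_neg (Nd.child_asymm hch), if_pos hch]
    refine Nd.look_eq hch fun m hm => ?_
    simp only [Nd.kid, Option.some.injEq] at hm
    simp only [Nd.lab, hm]

theorem EE_injective : Function.Injective EE := by
  classical
  have key1 : ∀ p p' : Option ((ℕ → Bool) × ℕ), EE (Sum.inl p) = EE (Sum.inl p') → p' = none →
      p = none := by
    intro p p' h hp'
    by_contra hp
    obtain ⟨a, rfl⟩ := Option.ne_none_iff_exists'.1 hp
    subst hp'
    let f : FanFun :=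
      { f := fun q => if q = some a then 1 else 0
        mem := fun q => by
          split_ifs <;> simp
        atInf := fun ε hε => ⟨a.2 + 1, fun i hi u => by
          have : ¬ ((u, i) = a) := by
            rintro rfl
            exact absurd hi (by simp)
          simp [this, hε.le]⟩ }
    obtain ⟨α, hα, _⟩ := exists_coord f ∅ countable_empty (fun _ => 0)
      (fun _ => ⟨le_rfl, zero_le_one⟩)
    have h1 := congrFun h α
    rw [hα, hα] at h1
    simp [f] at h1
  have key2 : ∀ (p : Option ((ℕ → Bool) × ℕ)) (x : Nd), EE (Sum.inl p) ≠ EE (Sum.inr x) := by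
    intro p x h
    obtain ⟨α, hα, hα'⟩ := exists_coord Nd.zeroFan {x} (countable_singleton x) (fun _ => 1)
      (fun _ => ⟨zero_le_one, le_rfl⟩)
    have h1 := congrFun h α
    rw [hα, hα' x rfl] at h1
    simp [Nd.zeroFan] at h1
  rintro (p | x) (p' | x') h
  · by_contra hne
    have hpp : p ≠ p' := fun h => hne (by rw [h])
    rcases p with _ | a
    · have := key1 p' none h.symm rfl
      exact hpp this.symm
    · rcases p' with _ | a'
      · exact hpp (key1 _ _ h rfl)
      · let f : FanFun :=
          { f := fun q => if q = some a then 1 else 0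
            mem := fun q => by
              split_ifs <;> simp
            atInf := fun ε hε => ⟨a.2 + 1, fun i hi u => by
              have : ¬ ((u, i) = a) := by
                rintro rfl
                exact absurd hi (by simp)
              simp [this, hε.le]⟩ }
        obtain ⟨α, hα, _⟩ := exists_coord f ∅ countable_empty (fun _ => 0)
          (fun _ => ⟨le_rfl, zero_le_one⟩)
        have h1 := congrFun h α
        rw [hα, hα] at h1
        have h2 : ¬ (a' = a) := fun h => hpp (by rw [h])
        simp [f, h2] at h1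
  · exact absurd h (key2 p x')
  · exact absurd h.symm (key2 p' x)
  · by_contra hne
    have hxx : x ≠ x' := fun h => hne (by rw [h])
    obtain ⟨α, _, hα'⟩ := exists_coord Nd.zeroFan {x, x'} ((countable_singleton x').insert x)
      (fun t => if t = x then 1 else 0)
      (fun t => by
        split_ifs <;> simp)
    have h1 := congrFun h α
    rw [hα' x (by simp), hα' x' (by simp)] at h1
    simp [hxx.symm] at h1


noncomputable instance : T35Space XX :=
  (⟨EE_inducing, EE_injective⟩ : IsEmbedding EE).t35Space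

/-- The fan points. -/
def pt (p : (ℕ → Bool) × ℕ) : XX := Sum.inl (some p)

/-- The centre of the fan. -/
def inf : XX := Sum.inl none

theorem XX_finset_nhds (O : Set XX) (hO : IsOpen O) (x : XX) (hx : x ∈ O) :
    ∃ (S : Finset Nd) (u : Nd → Set ℝ), (∀ α ∈ S, IsOpen (u α) ∧ EE x α ∈ u α) ∧
      ∀ x', (∀ α ∈ S, EE x' α ∈ u α) → x' ∈ O := by
  obtain ⟨O', hO', rfl⟩ := isOpen_induced_iff.1 hO
  obtain ⟨S, u, hu, hsub⟩ := isOpen_pi_iff.1 hO' (EE x) hx
  exact ⟨S, u, hu, fun x' hx' => hsub fun α hα => hx' α hα⟩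

/-- Every continuous real function on the space is bounded. -/
theorem XX_bdd (z : XX → ℝ) (hz : Continuous z) : ∃ M, ∀ x, |z x| ≤ M := by
  classical
  by_contra hcon
  push Not at hcon
  choose xs hxs using fun j : ℕ => hcon j
  have hS : ∀ j : ℕ, ∃ S : Finset Nd, ∀ x', (∀ α ∈ S, EE x' α = EE (xs j) α) → (j : ℝ) < |z x'| := by
    intro j
    obtain ⟨S, u, hu, hsub⟩ := XX_finset_nhds {x | (j : ℝ) < |z x|}
      (isOpen_lt continuous_const hz.abs) (xs j) (hxs j)
    exact ⟨S, fun x' hx' => hsub x' fun α hα => by rw [hx' α hα]; exact (hu α hα).2⟩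
  choose S hS using hS
  have hbox : IsCompact (Set.pi univ fun _ : Nd => Icc (0 : ℝ) 1) :=
    isCompact_univ_pi fun _ => isCompact_Icc
  obtain ⟨t, ht01, htlim⟩ := hbox.ultrafilter_le_nhds ((hyperfilter ℕ).map fun j => EE (xs j))
    (by
      rw [le_principal_iff]
      change (fun j => EE (xs j)) ⁻¹' _ ∈ hyperfilter ℕ
      have : (fun j => EE (xs j)) ⁻¹' (Set.pi univ fun _ : Nd => Icc (0 : ℝ) 1) = univ :=
        eq_univ_of_forall fun j x _ => EE_mem _ _
      rw [this]; exact Filter.univ_mem)
  have htlim' : Tendsto (fun j => EE (xs j)) (hyperfilter ℕ) (𝓝 t) := htlim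
  set T : Set Nd := ⋃ j, {α | α ∈ S j} with hT
  have hTc : T.Countable := countable_iUnion fun j => (S j).countable_toSet
  obtain ⟨x₀, hx₀⟩ := exists_point T hTc t fun α => ht01 α trivial
  obtain ⟨S₀, u, hu, hsub⟩ := XX_finset_nhds {x | |z x| < |z x₀| + 1}
    (isOpen_lt hz.abs continuous_const) x₀ (by simp)
  have hev : ∀ᶠ j : ℕ in (hyperfilter ℕ : Filter ℕ), ∀ α ∈ S₀, α ∈ T → EE (xs j) α ∈ u α := by
    rw [Filter.eventually_all_finset]
    intro α hα
    by_cases hαT : α ∈ T
    · have h1 : Tendsto (fun j => EE (xs j) α) (hyperfilter ℕ) (𝓝 (t α)) :=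
        ((continuous_apply α).tendsto t).comp htlim'
      have h2 : u α ∈ 𝓝 (t α) := by
        rw [← hx₀ α hαT]
        exact (hu α hα).1.mem_nhds (hu α hα).2
      filter_upwards [h1 h2] with j hj _
      exact hj
    · exact Eventually.of_forall fun j h => absurd h hαT
  have hev2 : ∀ᶠ j : ℕ in (hyperfilter ℕ : Filter ℕ), |z x₀| + 1 ≤ (j : ℝ) :=
    Nat.hyperfilter_le_atTop (tendsto_natCast_atTop_atTop.eventually_ge_atTop _)
  obtain ⟨j, hj1, hj2⟩ := (hev.and hev2).exists
  obtain ⟨x', hx'⟩ := exists_point {α | α ∈ S j ∪ S₀} (S j ∪ S₀).countable_toSet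
    (fun α => if α ∈ S j then EE (xs j) α else EE x₀ α)
    (fun α => by split_ifs <;> exact EE_mem _ _)
  have h1 : (j : ℝ) < |z x'| := hS j x' fun α hα => by
    rw [hx' α (Finset.mem_union_left _ hα), if_pos hα]
  have h2 : |z x'| < |z x₀| + 1 := hsub x' fun α hα => by
    rw [hx' α (Finset.mem_union_right _ hα)]
    by_cases hαj : α ∈ S j
    · rw [if_pos hαj]
      exact hj1 α hα (mem_iUnion.2 ⟨j, hαj⟩)
    · rw [if_neg hαj]
      exact (hu α hα).2
  linarith

theorem atInf_iff {X : Type} (p : (ℕ → Bool) × ℕ → X) (i₀ : X) (f : X → ℝ) :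
    AtInf p i₀ f ↔ Tendsto (fun a => f (p a)) (comap Prod.snd atTop) (𝓝 (f i₀)) := by
  rw [Metric.tendsto_nhds]
  constructor
  · intro h ε hε
    obtain ⟨n, hn⟩ := h (ε / 2) (by positivity)
    have : Prod.snd ⁻¹' (Ici n) ∈ comap (Prod.snd : (ℕ → Bool) × ℕ → ℕ) atTop :=
      preimage_mem_comap (Ici_mem_atTop n)
    filter_upwards [this] with a ha
    rw [Real.dist_eq]
    have h1 := hn a.2 ha a.1
    have h2 : f (p (a.1, a.2)) = f (p a) := rfl
    rw [h2] at h1
    linarith
  · intro h ε hε
    obtain ⟨s, hs, hsub⟩ := mem_comap.1 (h ε hε)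
    obtain ⟨n, hn⟩ := mem_atTop_sets.1 hs
    refine ⟨n, fun i hi u => ?_⟩
    have h1 : (u, i) ∈ {x : (ℕ → Bool) × ℕ | dist (f (p x)) (f i₀) < ε} := hsub (hn i hi)
    have h2 : dist (f (p (u, i))) (f i₀) < ε := h1
    rw [Real.dist_eq] at h2
    exact h2.le

theorem XX_atInf (z : XX → ℝ) (hz : Continuous z) : AtInf pt inf z := by
  rw [atInf_iff]
  have h1 : Tendsto pt (comap Prod.snd atTop) (𝓝 inf) := by
    rw [EE_inducing.tendsto_nhds_iff, tendsto_pi_nhds]
    intro α
    exact (atInf_iff (fun p => some p) none α.fan.f).1 α.fan.atInf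
  exact (hz.tendsto inf).comp h1

theorem XX_ext (y : XX → ℝ) (hy : y ∈ YY pt inf) (A : Set XX) (hA : A.Countable) :
    ∃ z : XX → ℝ, Continuous z ∧ (∀ p, z (pt p) = y (pt p)) ∧ z inf = y inf ∧
      ∀ a ∈ A, z a = y a := by
  obtain ⟨M₀, hM₀⟩ := hy.1
  obtain ⟨M, hMpos, hM⟩ : ∃ M : ℝ, 0 < M ∧ ∀ x, |y x| ≤ M :=
    ⟨max M₀ 1, lt_max_of_lt_right one_pos, fun x => (hM₀ x).trans (le_max_left _ _)⟩
  have hmem : ∀ x, (y x + M) / (2 * M) ∈ Icc (0 : ℝ) 1 := by
    intro x
    have h := abs_le.1 (hM x)
    constructor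
    · apply div_nonneg <;> linarith
    · rw [div_le_one (by linarith)]
      linarith
  let f : FanFun :=
    { f := fun p => (y (Sum.inl p) + M) / (2 * M)
      mem := fun p => hmem _
      atInf := by
        have h1 := (atInf_iff pt inf y).1 hy.2
        rw [atInf_iff]
        exact (h1.add_const M).div_const (2 * M) }
  obtain ⟨α, hα1, hα2⟩ := exists_coord f {x | Sum.inr x ∈ A}
    (hA.preimage Sum.inr_injective) (fun x => (y (Sum.inr x) + M) / (2 * M)) (fun x => hmem _)
  have hback : ∀ t : ℝ, 2 * M * ((t + M) / (2 * M)) - M = t := by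
    intro t
    have : (2 * M) ≠ 0 := by positivity
    rw [mul_div_cancel₀ _ this]
    ring
  have hinl : ∀ p, 2 * M * EE (Sum.inl p) α - M = y (Sum.inl p) := by
    intro p
    rw [hα1 p]
    exact hback _
  refine ⟨fun x => 2 * M * EE x α - M, ?_, fun p => hinl _, hinl _, ?_⟩
  · exact (continuous_const.mul (EE_continuous α)).sub continuous_const
  · rintro (p | x) ha
    · exact hinl p
    · change 2 * M * EE (Sum.inr x) α - M = y (Sum.inr x)
      rw [hα2 x ha]
      exact hback _

/-- The space has all the required properties. -/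
def XXGood : Good XX where
  pt := pt
  inf := inf
  inj := fun p p' h => by
    have := Sum.inl_injective h
    exact Option.some_injective _ this
  ne := fun p h => by
    have := Sum.inl_injective h
    simp at this
  bdd := XX_bdd
  atInf := XX_atInf
  ext := XX_ext

end Pool.Agent.Work.MP_fbd347_gt
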