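import Pool.Agent.Work.MP_fbd347_gt.Basic

set_option autoImplicit false

open Set Filter Topology

namespace Pool.Agent.Work.MP_fbd347_gt

/-- Continuity at `inf` with respect to the sequence of fans `pt (·, i)`. -/
def AtInf {X : Type} (pt : (ℕ → Bool) × ℕ → X) (inf : X) (f : X → ℝ) : Prop :=
  ∀ ε > 0, ∃ n : ℕ, ∀ i ≥ n, ∀ u, |f (pt (u, i)) - f inf| ≤ ε

/-- Bounded functions continuous on the fan part. -/
def YY {X : Type} (pt : (ℕ → Bool) × ℕ → X) (inf : X) : Set (X → ℝ) :=
  {y | (∃ M, ∀ x, |y x| ≤ M) ∧ AtInf pt inf y}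

/-- The properties of the space used in the argument. -/
structure Good (X : Type) [TopologicalSpace X] where
  pt : (ℕ → Bool) × ℕ → X
  inf : X
  inj : Function.Injective pt
  ne : ∀ p, pt p ≠ inf
  bdd : ∀ z : X → ℝ, Continuous z → ∃ M, ∀ x, |z x| ≤ M
  atInf : ∀ z : X → ℝ, Continuous z → AtInf pt inf z
  ext : ∀ y ∈ YY pt inf, ∀ A : Set X, A.Countable →
    ∃ z : X → ℝ, Continuous z ∧ (∀ p, z (pt p) = y (pt p)) ∧ z inf = y inf ∧ ∀ a ∈ A, z a = y a

variable {X : Type} [TopologicalSpace X]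

theorem Good.indicator_mem (G : Good X) (a : X) (ha : a ≠ G.inf) :
    (fun x => by classical exact if x = a then (1 : ℝ) else 0) ∈ YY G.pt G.inf := by
  classical
  refine ⟨⟨1, fun x => ?_⟩, fun ε hε => ?_⟩
  · change |if x = a then (1 : ℝ) else 0| ≤ 1
    split_ifs <;> simp
  · by_cases h : ∃ p, G.pt p = a
    · obtain ⟨⟨u₀, i₀⟩, rfl⟩ := h
      refine ⟨i₀ + 1, fun i hi u => ?_⟩
      have h1 : G.pt (u, i) ≠ G.pt (u₀, i₀) := fun h => by
        have := G.inj h
        simp only [Prod.mk.injEq] at this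
        omega
      simp [h1, ha.symm, hε.le]
    · push Not at h
      refine ⟨0, fun i _ u => ?_⟩
      simp [h (u, i), ha.symm, hε.le]

theorem Good.bumps (G : Good X) (A : Set X) (hA : A.Countable) :
    ∃ b : X → X → ℝ, (∀ a ∈ A, a ≠ G.inf → Continuous (b a)) ∧
      (∀ a ∈ A, a ≠ G.inf → b a a = 1) ∧
      (∀ a ∈ A, a ≠ G.inf → ∀ a' ∈ A, a' ≠ a → b a a' = 0) ∧
      (∀ a ∈ A, a ≠ G.inf → b a G.inf = 0) ∧
      ∀ x, ∀ a ∈ A, a ≠ G.inf → ∀ a' ∈ A, a' ≠ G.inf → a ≠ a' → b a x = 0 ∨ b a' x = 0 := by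
  classical
  have hex : ∀ a : X, ∃ z : X → ℝ, Continuous z ∧ (a ≠ G.inf →
      ∀ a' ∈ insert G.inf A, z a' = if a' = a then 1 else 0) := by
    intro a
    by_cases ha : a = G.inf
    · exact ⟨fun _ => 0, continuous_const, fun h => absurd ha h⟩
    · obtain ⟨z, hz, _, _, hz3⟩ := G.ext _ (G.indicator_mem a ha) (insert G.inf A) (hA.insert _)
      refine ⟨z, hz, fun _ a' ha' => ?_⟩
      rw [hz3 a' ha']
  choose e hec he using hex
  obtain ⟨c, hc⟩ := Set.countable_iff_exists_injOn.1 hA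
  have hfin : ∀ a, {a' | a' ∈ A ∧ a' ≠ G.inf ∧ c a' < c a}.Finite := by
    intro a
    refine Set.Finite.of_finite_image (f := c) ((Set.finite_Iio (c a)).subset ?_) ?_
    · rintro _ ⟨a', ⟨_, _, h⟩, rfl⟩
      exact h
    · exact hc.mono fun a' h => h.1
  refine ⟨fun a x => max 0 (2 * e a x - 1) * ∏ a' ∈ (hfin a).toFinset, max 0 (1 - 2 * e a' x),
    ?_, ?_, ?_, ?_, ?_⟩
  · intro a _ _
    refine (continuous_const.max ((continuous_const.mul (hec a)).sub continuous_const)).mul ?_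
    refine continuous_finsetProd _ fun a' _ => ?_
    exact continuous_const.max (continuous_const.sub (continuous_const.mul (hec a')))
  · intro a ha hai
    have h1 : e a a = 1 := by rw [he a hai a (mem_insert_of_mem _ ha)]; simp
    have h2 : ∏ a' ∈ (hfin a).toFinset, max 0 (1 - 2 * e a' a) = 1 := by
      refine Finset.prod_eq_one fun a' ha' => ?_
      have ha'' := (Set.Finite.mem_toFinset _).1 ha'
      have hne : a ≠ a' := by
        rintro rfl
        exact lt_irrefl _ ha''.2.2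
      rw [he a' ha''.2.1 a (mem_insert_of_mem _ ha)]
      simp [hne]
    simp only [h1, h2]
    norm_num
  · intro a _ hai a' ha' hne
    have h1 : e a a' = 0 := by rw [he a hai a' (mem_insert_of_mem _ ha')]; simp [hne]
    simp only [h1]
    norm_num
  · intro a _ hai
    have h1 : e a G.inf = 0 := by rw [he a hai _ (mem_insert _ _)]; simp [hai.symm]
    simp only [h1]
    norm_num
  · -- disjointness
    have key : ∀ x, ∀ a ∈ A, a ≠ G.inf → ∀ a' ∈ A, a' ≠ G.inf → c a < c a' →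
        (max 0 (2 * e a x - 1) * ∏ a'' ∈ (hfin a).toFinset, max 0 (1 - 2 * e a'' x)) = 0 ∨
        (max 0 (2 * e a' x - 1) * ∏ a'' ∈ (hfin a').toFinset, max 0 (1 - 2 * e a'' x)) = 0 := by
      intro x a ha hai a' ha' hai' hlt
      by_cases hx : 2 * e a x - 1 ≤ 0
      · left
        rw [max_eq_left hx, zero_mul]
      · right
        push Not at hx
        have : ∏ a'' ∈ (hfin a').toFinset, max 0 (1 - 2 * e a'' x) = 0 := by
          refine Finset.prod_eq_zero (i := a) ((Set.Finite.mem_toFinset _).2 ⟨ha, hai, hlt⟩) ?_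
          exact max_eq_left (by linarith)
        rw [this, mul_zero]
    intro x a ha hai a' ha' hai' hne
    rcases lt_trichotomy (c a) (c a') with h | h | h
    · exact key x a ha hai a' ha' hai' h
    · exact absurd (hc ha ha' h) hne
    · exact (key x a' ha' hai' a ha hai h).symm

/-- Basic neighbourhoods in `Cp X`. -/
theorem exists_finset_of_mem_open (O : Set (Cp X)) (hO : IsOpen O) (z : Cp X) (hz : z ∈ O) :
    ∃ F : Finset X, ∀ w : Cp X, (∀ x ∈ F, w.1 x = z.1 x) → w ∈ O := by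
  obtain ⟨O', hO', rfl⟩ := isOpen_induced_iff.1 hO
  obtain ⟨F, u, hu, hsub⟩ := isOpen_pi_iff.1 hO' z.1 hz
  refine ⟨F, fun w hw => hsub ?_⟩
  intro x hx
  rw [hw x hx]
  exact (hu x hx).2

theorem witness_pair (g : Cp X → ℝ) (hg : Continuous g) (ε : ℝ) (z z' : Cp X)
    (h : ε < |g z - g z'|) :
    ∃ F : Finset X, ∀ w w' : Cp X, (∀ x ∈ F, w.1 x = z.1 x) → (∀ x ∈ F, w'.1 x = z'.1 x) →
      ε < |g w - g w'| := by
  classical
  set r := (|g z - g z'| - ε) / 2 with hr
  have hrpos : 0 < r := by rw [hr]; linarith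
  have hO : ∀ v : Cp X, IsOpen {w : Cp X | |g w - g v| < r} := fun v =>
    isOpen_lt ((hg.sub continuous_const).abs) continuous_const
  obtain ⟨F, hF⟩ := exists_finset_of_mem_open _ (hO z) z (by simpa using hrpos)
  obtain ⟨F', hF'⟩ := exists_finset_of_mem_open _ (hO z') z' (by simpa using hrpos)
  refine ⟨F ∪ F', fun w w' hw hw' => ?_⟩
  have h1 : |g w - g z| < r := hF w fun x hx => hw x (Finset.mem_union_left _ hx)
  have h2 : |g w' - g z'| < r := hF' w' fun x hx => hw' x (Finset.mem_union_right _ hx)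
  have h3 : |g z - g z'| ≤ |g w - g z| + |g w - g w'| + |g w' - g z'| := by
    have e1 : g z - g z' = -(g w - g z) + (g w - g w') + (g w' - g z') := by ring
    rw [e1]
    refine (abs_add_le _ _).trans ?_
    gcongr
    refine (abs_add_le _ _).trans ?_
    rw [abs_neg]
  linarith

end Pool.Agent.Work.MP_fbd347_gt
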