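import Mathlib

set_option autoImplicit false

open Set Filter Topology

namespace Pool.Agent.Work.MP_fbd347_gt

/-- `Cp X`: continuous real functions with the topology of pointwise convergence. -/
abbrev Cp (X : Type) [TopologicalSpace X] := {f : X → ℝ // Continuous f}

/-- The bounded distance-to-target series. -/
noncomputable def eta {W : Type} (g : ℕ → W → ℝ) (c : ℕ → ℝ) (w : W) : ℝ :=
  ∑' n, (1 / 2 : ℝ) ^ n * min 1 |g n w - c n|

theorem eta_term_bound (a b : ℝ) (n : ℕ) :
    ‖(1 / 2 : ℝ) ^ n * min 1 |a - b|‖ ≤ (1 / 2 : ℝ) ^ n := by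
  rw [Real.norm_eq_abs, abs_of_nonneg (by positivity)]
  calc (1 / 2 : ℝ) ^ n * min 1 |a - b| ≤ (1 / 2 : ℝ) ^ n * 1 := by
        gcongr; exact min_le_left _ _
    _ = _ := mul_one _

theorem eta_summable {W : Type} (g : ℕ → W → ℝ) (c : ℕ → ℝ) (w : W) :
    Summable fun n => (1 / 2 : ℝ) ^ n * min 1 |g n w - c n| :=
  Summable.of_norm_bounded summable_geometric_two fun n => eta_term_bound _ _ n

theorem eta_continuous {W : Type} [TopologicalSpace W] (g : ℕ → W → ℝ)
    (hg : ∀ n, Continuous (g n)) (c : ℕ → ℝ) : Continuous (eta g c) := by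
  refine continuous_tsum (u := fun n => (1 / 2 : ℝ) ^ n) (fun n => ?_) summable_geometric_two
    (fun n w => eta_term_bound _ _ n)
  exact continuous_const.mul (continuous_const.min ((hg n).sub continuous_const).abs)

theorem eta_pos {W : Type} (g : ℕ → W → ℝ) (c : ℕ → ℝ) (w : W) (h : ∃ n, g n w ≠ c n) :
    0 < eta g c w := by
  obtain ⟨n, hn⟩ := h
  refine (eta_summable g c w).tsum_pos (fun m => by positivity) n ?_
  have : 0 < |g n w - c n| := abs_pos.2 (sub_ne_zero.2 hn)
  positivity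

/-- Points of the closure of the evaluation image are `G_δ`-approximable. -/
theorem gdelta_approx {W : Type} [TopologicalSpace W]
    (ξ : Cp W → ℝ) (hξ : ξ ∈ closure (range (fun (w : W) (g : Cp W) => g.1 w)))
    (g : ℕ → Cp W) : ∃ w : W, ∀ n, (g n).1 w = ξ (g n) := by
  by_contra hcon
  push Not at hcon
  let h : W → ℝ := eta (fun n => (g n).1) (fun n => ξ (g n))
  have hpos : ∀ w, 0 < h w := fun w => eta_pos _ _ w (hcon w)
  have hcont : Continuous h := eta_continuous _ (fun n => (g n).2) _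
  let G : Cp W := ⟨fun w => (h w)⁻¹, hcont.inv₀ fun w => (hpos w).ne'⟩
  have hne : (comap (fun (w : W) (g : Cp W) => g.1 w) (𝓝 ξ)).NeBot := by
    rw [comap_neBot_iff]
    intro t ht
    obtain ⟨_, hx, w, rfl⟩ := mem_closure_iff_nhds.1 hξ t ht
    exact ⟨w, hx⟩
  have htend : Tendsto (fun (w : W) (g : Cp W) => g.1 w)
      (comap (fun (w : W) (g : Cp W) => g.1 w) (𝓝 ξ)) (𝓝 ξ) := tendsto_comap
  have hco : ∀ k : Cp W, Tendsto (fun w => k.1 w)
      (comap (fun (w : W) (g : Cp W) => g.1 w) (𝓝 ξ)) (𝓝 (ξ k)) := fun k =>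
    ((continuous_apply k).tendsto ξ).comp htend
  have hzero : Tendsto h (comap (fun (w : W) (g : Cp W) => g.1 w) (𝓝 ξ)) (𝓝 0) := by
    have : Tendsto h (comap (fun (w : W) (g : Cp W) => g.1 w) (𝓝 ξ))
        (𝓝 (∑' n, (1 / 2 : ℝ) ^ n * min 1 |ξ (g n) - ξ (g n)|)) := by
      refine tendsto_tsum_of_dominated_convergence (bound := fun n => (1 / 2 : ℝ) ^ n)
        summable_geometric_two (fun n => ?_) (Eventually.of_forall fun w n => eta_term_bound _ _ n)
      exact (tendsto_const_nhds.min ((hco (g n)).sub tendsto_const_nhds).abs).const_mul _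
    simpa using this
  have hprod := hzero.mul (hco G)
  have hone : (fun w => h w * G.1 w) = fun _ => (1 : ℝ) := by
    funext w
    exact mul_inv_cancel₀ (hpos w).ne'
  rw [hone, zero_mul] at hprod
  exact one_ne_zero (tendsto_nhds_unique hprod tendsto_const_nhds).symm

end Pool.Agent.Work.MP_fbd347_gt
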