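import Pool.Agent.Work.MP_fbd347_gt.Osc

set_option autoImplicit false

open Set Filter Topology

namespace Pool.Agent.Work.MP_fbd347_gt

variable {X : Type} [TopologicalSpace X]

/-- The space `YY` as a subtype of `X → ℝ`. -/
abbrev Good.YT (G : Good X) := {y : X → ℝ // y ∈ YY G.pt G.inf}

/-- The inclusion of `Cp X` into `YT`. -/
def Good.inc (G : Good X) (z : Cp X) : G.YT := ⟨z.1, G.bdd z.1 z.2, G.atInf z.1 z.2⟩

theorem Good.inc_dense (G : Good X) : IsDenseInducing G.inc where
  toIsInducing := by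
    have h : IsInducing ((Subtype.val : G.YT → X → ℝ) ∘ G.inc) := IsInducing.subtypeVal
    exact (IsInducing.of_comp_iff IsInducing.subtypeVal).1 h
  dense := by
    intro y
    rw [mem_closure_iff]
    intro O hO hy
    obtain ⟨O', hO', rfl⟩ := isOpen_induced_iff.1 hO
    obtain ⟨F, u, hu, hsub⟩ := isOpen_pi_iff.1 hO' y.1 hy
    obtain ⟨z, hz, _, _, hzF⟩ := G.ext y.1 y.2 F F.countable_toSet
    refine ⟨G.inc ⟨z, hz⟩, hsub ?_, mem_range_self _⟩
    intro x hx
    change z x ∈ u x
    rw [hzF x hx]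
    exact (hu x hx).2

theorem Good.exists_lim (G : Good X) (g : Cp X → ℝ) (hg : Continuous g) (y : G.YT) :
    ∃ c, Tendsto g (comap G.inc (𝓝 y)) (𝓝 c) := by
  have hne : (comap G.inc (𝓝 y)).NeBot := G.inc_dense.comap_nhds_neBot y
  have hc : Cauchy (map g (comap G.inc (𝓝 y))) := by
    rw [Metric.cauchy_iff]
    refine ⟨hne.map g, fun ε hε => ?_⟩
    obtain ⟨F, δ, hδ, h⟩ := G.osc g hg y.1 y.2 (ε / 2) (by positivity)
    have hO : {v : G.YT | ∀ x ∈ F, |v.1 x - y.1 x| < δ} ∈ 𝓝 y := by
      have : IsOpen {v : G.YT | ∀ x ∈ F, |v.1 x - y.1 x| < δ} := by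
        have heq : {v : G.YT | ∀ x ∈ F, |v.1 x - y.1 x| < δ} =
            ⋂ x ∈ F, {v : G.YT | |v.1 x - y.1 x| < δ} := by
          ext v; simp
        rw [heq]
        refine isOpen_biInter_finset fun x _ => ?_
        refine isOpen_lt (Continuous.abs ?_) continuous_const
        exact ((continuous_apply x).comp continuous_subtype_val).sub continuous_const
      exact this.mem_nhds (by simpa using fun _ _ => hδ)
    refine ⟨g '' (G.inc ⁻¹' {v : G.YT | ∀ x ∈ F, |v.1 x - y.1 x| < δ}),
      image_mem_map (preimage_mem_comap hO), ?_⟩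
    rintro _ ⟨z, hz, rfl⟩ _ ⟨z', hz', rfl⟩
    have := h z z' hz hz'
    rw [Real.dist_eq]
    linarith
  exact CompleteSpace.complete hc

/-- The extension of continuous functions from `Cp X` to `YT`. -/
noncomputable def Good.hat (G : Good X) (g : Cp (Cp X)) : G.YT → ℝ :=
  G.inc_dense.extend g.1

theorem Good.hat_continuous (G : Good X) (g : Cp (Cp X)) : Continuous (G.hat g) :=
  G.inc_dense.continuous_extend fun y => G.exists_lim g.1 g.2 y

theorem Good.hat_inc (G : Good X) (g : Cp (Cp X)) (z : Cp X) : G.hat g (G.inc z) = g.1 z :=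
  G.inc_dense.extend_eq g.2 z

/-- The evaluation image, first level. -/
abbrev EV (W : Type) [TopologicalSpace W] : Set (Cp W → ℝ) :=
  range (fun (w : W) (g : Cp W) => g.1 w)

theorem Good.closure_EV (G : Good X) :
    closure (EV (Cp X)) = range (fun (y : G.YT) (g : Cp (Cp X)) => G.hat g y) := by
  have hcont : Continuous (fun (y : G.YT) (g : Cp (Cp X)) => G.hat g y) :=
    continuous_pi fun g => G.hat_continuous g
  apply Subset.antisymm
  · intro ξ hξ
    -- the associated function on `X`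
    let ex : X → Cp (Cp X) := fun x => ⟨fun z => z.1 x, (continuous_apply x).comp
      continuous_subtype_val⟩
    let yξ : X → ℝ := fun x => ξ (ex x)
    have happ : ∀ s : ℕ → X, ∃ z : Cp X, ∀ n, z.1 (s n) = yξ (s n) := by
      intro s
      obtain ⟨z, hz⟩ := gdelta_approx ξ hξ (fun n => ex (s n))
      exact ⟨z, hz⟩
    have hb : ∃ M, ∀ x, |yξ x| ≤ M := by
      by_contra hcon
      push Not at hcon
      choose s hs using fun n : ℕ => hcon n
      obtain ⟨z, hz⟩ := happ s
      obtain ⟨M, hM⟩ := G.bdd z.1 z.2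
      obtain ⟨n, hn⟩ := exists_nat_gt M
      have h1 := hs n
      have h2 := hM (s n)
      rw [hz n] at h2
      linarith
    have hi : AtInf G.pt G.inf yξ := by
      intro ε hε
      by_contra hcon
      push Not at hcon
      choose i hi u hu using hcon
      obtain ⟨z, hz⟩ := happ (fun n => Nat.casesOn n G.inf fun n => G.pt (u n, i n))
      have hz0 : z.1 G.inf = yξ G.inf := hz 0
      have hzs : ∀ n, z.1 (G.pt (u n, i n)) = yξ (G.pt (u n, i n)) := fun n => hz (n + 1)
      obtain ⟨n, hn⟩ := G.atInf z.1 z.2 ε hε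
      have h1 := hn (i n) (hi n) (u n)
      have h2 := hu n
      rw [hz0, hzs n] at h1
      linarith
    refine ⟨⟨yξ, hb, hi⟩, ?_⟩
    funext g
    -- `ξ g` is the value of the extension
    by_contra hne
    set y : G.YT := ⟨yξ, hb, hi⟩ with hy
    have hε : 0 < |G.hat g y - ξ g| / 2 := by
      have : 0 < |G.hat g y - ξ g| := abs_pos.2 (sub_ne_zero.2 hne)
      linarith
    set ε := |G.hat g y - ξ g| / 2 with hεdef
    have hO : IsOpen {v : G.YT | |G.hat g v - G.hat g y| < ε} :=
      isOpen_lt ((G.hat_continuous g).sub continuous_const).abs continuous_const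
    obtain ⟨O', hO', hOO'⟩ := isOpen_induced_iff.1 hO
    have hyO : y.1 ∈ O' := by
      have : y ∈ Subtype.val ⁻¹' O' := by
        rw [hOO']
        simpa using hε
      exact this
    obtain ⟨F, u, hu, hsub⟩ := isOpen_pi_iff.1 hO' y.1 hyO
    have hU : IsOpen ({ζ : Cp (Cp X) → ℝ | |ζ g - ξ g| < ε} ∩
        ⋂ x ∈ F, {ζ : Cp (Cp X) → ℝ | ζ (ex x) ∈ u x}) := by
      refine IsOpen.inter ?_ ?_
      · exact isOpen_lt ((continuous_apply g).sub continuous_const).abs continuous_const
      · exact isOpen_biInter_finset fun x hx => (hu x hx).1.preimage (continuous_apply (ex x))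
    obtain ⟨_, ⟨h1, h2⟩, z, rfl⟩ := mem_closure_iff.1 hξ _ hU
      ⟨by simpa using hε, mem_iInter₂.2 fun x hx => (hu x hx).2⟩
    have h3 : z.1 ∈ O' := hsub fun x hx => mem_iInter₂.1 h2 x hx
    have h4 : G.inc z ∈ {v : G.YT | |G.hat g v - G.hat g y| < ε} := by
      rw [← hOO']
      exact h3
    have h5 : |G.hat g (G.inc z) - G.hat g y| < ε := h4
    rw [G.hat_inc] at h5
    have h1' : |g.1 z - ξ g| < ε := h1
    have : |G.hat g y - ξ g| ≤ |g.1 z - G.hat g y| + |g.1 z - ξ g| := by
      have e1 : G.hat g y - ξ g = -(g.1 z - G.hat g y) + (g.1 z - ξ g) := by ring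
      rw [e1]
      refine (abs_add_le _ _).trans ?_
      rw [abs_neg]
    linarith
  · rintro _ ⟨y, rfl⟩
    have h1 : y ∈ closure (range G.inc) := G.inc_dense.dense y
    have h2 := image_closure_subset_closure_image hcont ⟨y, h1, rfl⟩
    refine closure_mono ?_ h2
    rintro _ ⟨_, ⟨z, rfl⟩, rfl⟩
    refine ⟨z, ?_⟩
    funext g
    exact (G.hat_inc g z).symm

end Pool.Agent.Work.MP_fbd347_gt
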