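import Pool.Agent.Work.MP_fbd347_gt.Abstract

set_option autoImplicit false

open Set Filter Topology

namespace Pool.Agent.Work.MP_fbd347_gt

variable {X : Type} [TopologicalSpace X]

/-- Oscillation lemma: every continuous function on `Cp X` has zero oscillation at every point
of the set `YY`. -/
theorem Good.osc (G : Good X) (g : Cp X → ℝ) (hg : Continuous g) (y : X → ℝ)
    (hy : y ∈ YY G.pt G.inf) (ε : ℝ) (hε : 0 < ε) :
    ∃ F : Finset X, ∃ δ > 0, ∀ z z' : Cp X, (∀ x ∈ F, |z.1 x - y x| < δ) →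
      (∀ x ∈ F, |z'.1 x - y x| < δ) → |g z - g z'| ≤ ε := by
  classical
  by_contra hcon
  push Not at hcon
  -- choice of witnesses
  have step : ∀ (F : Finset X) (n : ℕ), ∃ (z z' : Cp X) (F' : Finset X), F ⊆ F' ∧
      (∀ x ∈ F, |z.1 x - y x| < 1 / ((n : ℝ) + 1)) ∧
      (∀ x ∈ F, |z'.1 x - y x| < 1 / ((n : ℝ) + 1)) ∧
      ∀ w w' : Cp X, (∀ x ∈ F', w.1 x = z.1 x) → (∀ x ∈ F', w'.1 x = z'.1 x) →
        ε < |g w - g w'| := by
    intro F n
    obtain ⟨z, z', h1, h2, h3⟩ := hcon F (1 / ((n : ℝ) + 1)) (by positivity)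
    obtain ⟨F', hF'⟩ := witness_pair g hg ε z z' h3
    exact ⟨z, z', F ∪ F', Finset.subset_union_left, h1, h2, fun w w' hw hw' =>
      hF' w w' (fun x hx => hw x (Finset.mem_union_right _ hx))
        (fun x hx => hw' x (Finset.mem_union_right _ hx))⟩
  choose Z Z' Ff hsub hZ hZ' hFf using step
  let Fs : ℕ → Finset X := fun n => Nat.rec {G.inf} (fun n F => Ff F n) n
  have hFs0 : Fs 0 = {G.inf} := rfl
  have hFs : ∀ n, Fs (n + 1) = Ff (Fs n) n := fun n => rfl
  have hmono : Monotone Fs := monotone_nat_of_le_succ fun n => by rw [hFs]; exact hsub _ _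
  have hinf : ∀ n, G.inf ∈ Fs n := fun n => hmono (Nat.zero_le n) (by rw [hFs0]; simp)
  set A : Set X := ⋃ n, {x | x ∈ Fs n} with hA
  have hAc : A.Countable := countable_iUnion fun n => (Fs n).countable_toSet
  have hFA : ∀ n, ∀ x ∈ Fs n, x ∈ A := fun n x hx => mem_iUnion.2 ⟨n, hx⟩
  have hinfA : G.inf ∈ A := hFA 0 _ (hinf 0)
  obtain ⟨z, hzc, _, _, hzA⟩ := G.ext y hy A hAc
  obtain ⟨b, hb1, hb2, hb3, hb4, hb5⟩ := G.bumps A hAc
  -- the corrections
  let H : (X → ℝ) → Finset X → X → ℝ := fun k F x =>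
    k G.inf + ∑ a ∈ F.erase G.inf, (k a - k G.inf) * b a x
  have hHc : ∀ k n, Continuous (H k (Fs n)) := by
    intro k n
    refine continuous_const.add (continuous_finsetSum _ fun a ha => ?_)
    have ha' := Finset.mem_erase.1 ha
    exact continuous_const.mul (hb1 a (hFA n a ha'.2) ha'.1)
  have hHval : ∀ k n, ∀ x ∈ Fs n, H k (Fs n) x = k x := by
    intro k n x hx
    by_cases hxi : x = G.inf
    · subst hxi
      have : ∑ a ∈ (Fs n).erase G.inf, (k a - k G.inf) * b a G.inf = 0 := by
        refine Finset.sum_eq_zero fun a ha => ?_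
        have ha' := Finset.mem_erase.1 ha
        rw [hb4 a (hFA n a ha'.2) ha'.1, mul_zero]
      simp only [H, this, add_zero]
    · have : ∑ a ∈ (Fs n).erase G.inf, (k a - k G.inf) * b a x = (k x - k G.inf) := by
        rw [Finset.sum_eq_single x]
        · rw [hb2 x (hFA n x hx) hxi, mul_one]
        · intro a ha hax
          have ha' := Finset.mem_erase.1 ha
          rw [hb3 a (hFA n a ha'.2) ha'.1 x (hFA n x hx) hax.symm, mul_zero]
        · intro h
          exact absurd (Finset.mem_erase.2 ⟨hxi, hx⟩) h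
      simp only [H, this]
      ring
  -- pointwise convergence of the corrections
  have hlim : ∀ (zz : ℕ → X → ℝ), (∀ n, ∀ x ∈ Fs n, |zz n x - y x| < 1 / ((n : ℝ) + 1)) →
      ∀ x, Tendsto (fun n => H (fun t => zz n t - z t) (Fs (n + 1)) x) atTop (𝓝 0) := by
    intro zz hzz x
    have hk : ∀ a ∈ A, Tendsto (fun n => zz n a - z a) atTop (𝓝 0) := by
      intro a ha
      obtain ⟨m, hm⟩ := mem_iUnion.1 ha
      rw [tendsto_zero_iff_abs_tendsto_zero]
      refine squeeze_zero' (Eventually.of_forall fun n => abs_nonneg _) ?_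
        tendsto_one_div_add_atTop_nhds_zero_nat
      filter_upwards [eventually_ge_atTop m] with n hn
      simp only [Function.comp_apply]
      rw [hzA a ha]
      exact (hzz n a (hmono hn hm)).le
    by_cases hx : ∃ a₀ ∈ A, a₀ ≠ G.inf ∧ b a₀ x ≠ 0
    · obtain ⟨a₀, ha₀, ha₀i, hbx⟩ := hx
      obtain ⟨m, hm⟩ := mem_iUnion.1 ha₀
      have hlim0 : Tendsto (fun n => (zz n G.inf - z G.inf) +
          ((zz n a₀ - z a₀) - (zz n G.inf - z G.inf)) * b a₀ x) atTop (𝓝 0) := by
        have h1 := hk G.inf hinfA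
        have h2 := ((hk a₀ ha₀).sub h1).mul_const (b a₀ x)
        simpa using h1.add h2
      refine hlim0.congr' ?_
      filter_upwards [eventually_ge_atTop m] with n hn
      have hmem : a₀ ∈ Fs (n + 1) := hmono (hn.trans (Nat.le_succ n)) hm
      simp only [H]
      congr 1
      symm
      refine Finset.sum_eq_single a₀ ?_ ?_
      · intro a ha hne
        have ha' := Finset.mem_erase.1 ha
        rcases hb5 x a (hFA (n + 1) a ha'.2) ha'.1 a₀ ha₀ ha₀i hne with h | h
        · rw [h, mul_zero]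
        · exact absurd h hbx
      · intro h
        exact absurd (Finset.mem_erase.2 ⟨ha₀i, hmem⟩) h
    · push Not at hx
      refine (hk G.inf hinfA).congr fun n => ?_
      simp only [H]
      rw [Finset.sum_eq_zero, add_zero]
      intro a ha
      have ha' := Finset.mem_erase.1 ha
      rw [hx a (hFA (n + 1) a ha'.2) ha'.1, mul_zero]
  let zs : Cp X := ⟨z, hzc⟩
  let w : ℕ → Cp X := fun n => ⟨fun x => z x + H (fun t => (Z (Fs n) n).1 t - z t) (Fs (n + 1)) x,
    hzc.add (hHc (fun t => (Z (Fs n) n).1 t - z t) (n + 1))⟩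
  let w' : ℕ → Cp X := fun n => ⟨fun x => z x + H (fun t => (Z' (Fs n) n).1 t - z t) (Fs (n + 1)) x,
    hzc.add (hHc (fun t => (Z' (Fs n) n).1 t - z t) (n + 1))⟩
  have hw : Tendsto w atTop (𝓝 zs) := by
    rw [tendsto_subtype_rng, tendsto_pi_nhds]
    intro x
    have := (hlim (fun n => (Z (Fs n) n).1) (fun n => hZ (Fs n) n) x).const_add (z x)
    simpa using this
  have hw' : Tendsto w' atTop (𝓝 zs) := by
    rw [tendsto_subtype_rng, tendsto_pi_nhds]
    intro x
    have := (hlim (fun n => (Z' (Fs n) n).1) (fun n => hZ' (Fs n) n) x).const_add (z x)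
    simpa using this
  have hbig : ∀ n, ε < |g (w n) - g (w' n)| := by
    intro n
    refine hFf (Fs n) n (w n) (w' n) (fun x hx => ?_) (fun x hx => ?_)
    · rw [← hFs] at hx
      have h := hHval (fun t => (Z (Fs n) n).1 t - z t) (n + 1) x hx
      change z x + H (fun t => (Z (Fs n) n).1 t - z t) (Fs (n + 1)) x = _
      linarith
    · rw [← hFs] at hx
      have h := hHval (fun t => (Z' (Fs n) n).1 t - z t) (n + 1) x hx
      change z x + H (fun t => (Z' (Fs n) n).1 t - z t) (Fs (n + 1)) x = _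
      linarith
  have hdiff : Tendsto (fun n => |g (w n) - g (w' n)|) atTop (𝓝 0) := by
    have h1 := (hg.tendsto zs).comp hw
    have h2 := (hg.tendsto zs).comp hw'
    have h3 := (h1.sub h2).abs
    simpa using h3
  have := ge_of_tendsto hdiff (Eventually.of_forall fun n => (hbig n).le)
  linarith

end Pool.Agent.Work.MP_fbd347_gt
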